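import Pool.Agent.Q293.HF.Stm

/-!
Project HF, job JOIN: the Mayer-Vietoris argument for a space covered by two open sets with 2 and 3
contractible pieces whose 6 intersections are contractible.
-/

set_option autoImplicit false

open Topology Filter

namespace Pool.Agent.Q13.HF.JOIN

open Pool.Agent.Q293.HF Pool.Agent.Helper922.HB

section gen

variable {X Y : Type} [TopologicalSpace X] [TopologicalSpace Y]

theorem PP_apply (g : C(X, X)) (n : ℕ) (z : Sing X n →₀ ℤ) :
    PP g n z = z - push g n z + push g n (push g n z) := rfl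

theorem push_PP (f : C(X, Y)) (g : C(X, X)) (g' : C(Y, Y)) (h : ∀ x, f (g x) = g' (f x)) (n : ℕ)
    (z : Sing X n →₀ ℤ) : push f n (PP g n z) = PP g' n (push f n z) := by
  have h1 : f.comp g = g'.comp f := ContinuousMap.ext h
  have h2 : ∀ w : Sing X n →₀ ℤ, push f n (push g n w) = push g' n (push f n w) := by
    intro w
    rw [push_push, push_push, h1]
  rw [PP_apply, PP_apply, map_add, map_sub, h2, h2, h2]

theorem bdry_PP (g : C(X, X)) (n : ℕ) (z : Sing X (n + 1) →₀ ℤ) :
    bdry X n (PP g (n + 1) z) = PP g n (bdry X n z) := by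
  rw [PP_apply, PP_apply, map_add, map_sub, bdry_push, bdry_push, bdry_push]

theorem PP_mem_Bdy (g : C(X, X)) (n : ℕ) (z : Sing X n →₀ ℤ) (hz : z ∈ Bdy X n) :
    PP g n z ∈ Bdy X n := by
  rw [PP_apply]
  exact (Bdy X n).add_mem ((Bdy X n).sub_mem hz (push_mem_Bdy g n z hz))
    (push_mem_Bdy g n _ (push_mem_Bdy g n z hz))

theorem lsm_single {L : Type} [DecidableEq L] (l : X → L) (i : L) (σ : Sing X 0) (c : ℤ) :
    lsm l i (Finsupp.single σ c) = if l (σ (Sc.vert 0 0)) = i then c else 0 := by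
  unfold lsm
  rw [Finsupp.lsum_single]
  split_ifs <;> rfl

/-- the point `x` as a singular simplex -/
noncomputable def pt (x : X) : Sing X 0 := ContinuousMap.const _ x

theorem eq_pt (σ : Sing X 0) : σ = pt (σ (Sc.vert 0 0)) := by
  ext t
  have hs : ∀ x y : stdSimplex ℝ (Fin 1), x = y := fun x y => Subsingleton.elim _ _
  rw [hs t (Sc.vert 0 0)]
  rfl

theorem push_pt (f : C(X, Y)) (x : X) (c : ℤ) :
    push f 0 (Finsupp.single (pt x) c) = Finsupp.single (pt (f x)) c := by
  rw [push_single]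
  rfl

theorem aug_zero (x₀ : X) (h : ∀ x : X, Finsupp.single (pt x) (1 : ℤ) - Finsupp.single (pt x₀) 1 ∈ Bdy X 0)
    (z : Sing X 0 →₀ ℤ) : z - aug X 0 z • Finsupp.single (pt x₀) (1 : ℤ) ∈ Bdy X 0 := by
  induction z using Finsupp.induction_linear with
  | zero => rw [map_zero, zero_smul, sub_zero]; exact Submodule.zero_mem _
  | add u v hu hv =>
    rw [map_add, add_smul, add_sub_add_comm]
    exact Submodule.add_mem _ hu hv
  | single σ c =>
    have h1 : aug X 0 (Finsupp.single σ c) = c := by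
      unfold aug
      rw [Finsupp.lsum_single]
      rfl
    rw [h1]
    have h2 : (Finsupp.single σ c : Sing X 0 →₀ ℤ) = c • Finsupp.single σ (1 : ℤ) := by
      rw [Finsupp.smul_single, smul_eq_mul, mul_one]
    rw [h2, ← smul_sub, eq_pt σ]
    exact Submodule.smul_mem _ _ (h _)

end gen

/-- The restriction of a continuous map to a stable set -/
def rs {X : Type} [TopologicalSpace X] (g : C(X, X)) (A : Set X) (h : ∀ x ∈ A, g x ∈ A) : C(A, A) :=
  ⟨fun x => ⟨g x.1, h x.1 x.2⟩, by fun_prop⟩

theorem table (D : ZMod 2 → ZMod 3 → ℤ) (h2 : ∀ j, ∑ i, D i j = 0) (h3 : ∀ i, ∑ j, D i j = 0)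
    (i : ZMod 2) (j : ZMod 3) : D i j - D (i - 1) (j - 1) + D (i - 1 - 1) (j - 1 - 1) = 0 := by
  have h2' : ∀ j, D 0 j + D 1 j = 0 := by
    intro j
    have h := h2 j
    have e : ∑ i, D i j = D 0 j + D 1 j := Fin.sum_univ_two (fun i : Fin 2 => D i j)
    rw [← e]; exact h
  have h3' : ∀ i, D i 0 + D i 1 + D i 2 = 0 := by
    intro i
    have h := h3 i
    have e : ∑ j, D i j = D i 0 + D i 1 + D i 2 := Fin.sum_univ_three (fun j : Fin 3 => D i j)
    rw [← e]; exact h
  have ei : i = 0 ∨ i = 1 := by revert i; decide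
  have ej : j = 0 ∨ j = 1 ∨ j = 2 := by revert j; decide
  have a1 : (0 : ZMod 2) - 1 = 1 := by decide
  have a2 : (1 : ZMod 2) - 1 = 0 := by decide
  have b1 : (0 : ZMod 3) - 1 = 2 := by decide
  have b2 : (1 : ZMod 3) - 1 = 0 := by decide
  have b3 : (2 : ZMod 3) - 1 = 1 := by decide
  have p0 := h2' 0
  have p1 := h2' 1
  have p2 := h2' 2
  have q0 := h3' 0
  have q1 := h3' 1
  rcases ei with rfl | rfl <;> rcases ej with rfl | rfl | rfl <;>
    simp only [a1, a2, b1, b2, b3] <;> linarith

theorem contr_piece {F : Type} [TopologicalSpace F] (A : Set F) (P : F → Prop)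
    (h : ContractibleSpace ↥{x | x ∈ A ∧ P x}) : ContractibleSpace ↥{x : A | P x} := by
  let e : ↥{x : A | P x} ≃ₜ ↥{x | x ∈ A ∧ P x} :=
    { toFun := fun x => ⟨x.1.1, x.1.2, x.2⟩
      invFun := fun x => ⟨⟨x.1, x.2.1⟩, x.2.2⟩
      left_inv := fun x => rfl
      right_inv := fun x => rfl
      continuous_toFun := by fun_prop
      continuous_invFun := by fun_prop }
  exact e.contractibleSpace

theorem join (hL : S_LAB) : S_JOIN := by
  intro F _ g A B a b hAo hBo hcov hgA hgB hAi hBj hcA hcB hcAB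
  -- labels
  let lA : A → ZMod 2 := fun x => a x
  let lB : B → ZMod 3 := fun x => b x
  let lAB : ↥(A ∩ B) → ZMod 2 × ZMod 3 := fun x => (a x, b x)
  obtain ⟨hA1, hA0⟩ := hL A (ZMod 2) lA (fun i => by
    have h := (hAi i).preimage (continuous_subtype_val (p := fun x => x ∈ A))
    convert h using 1
    ext x
    exact ⟨fun hx => ⟨x.2, hx⟩, fun hx => hx.2⟩) (fun i => contr_piece A (fun x => a x = i) (hcA i))
  obtain ⟨hB1, hB0⟩ := hL B (ZMod 3) lB (fun j => by
    have h := (hBj j).preimage (continuous_subtype_val (p := fun x => x ∈ B))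
    convert h using 1
    ext x
    exact ⟨fun hx => ⟨x.2, hx⟩, fun hx => hx.2⟩) (fun j => contr_piece B (fun x => b x = j) (hcB j))
  have hcAB' : ∀ i j, ContractibleSpace ↥{x | x ∈ A ∩ B ∧ (a x, b x) = (i, j)} := by
    intro i j
    have h := hcAB i j
    have e : {x | x ∈ A ∩ B ∧ (a x, b x) = (i, j)} =
        {x | (x ∈ A ∧ a x = i) ∧ (x ∈ B ∧ b x = j)} := by
      ext x
      simp only [Set.mem_setOf_eq, Set.mem_inter_iff, Prod.mk.injEq]
      tauto
    rw [e]
    exact h
  obtain ⟨hI1, hI0⟩ := hL ↥(A ∩ B) (ZMod 2 × ZMod 3) lAB (fun ij => by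
    have h := ((hAi ij.1).inter (hBj ij.2)).preimage
      (continuous_subtype_val (p := fun x => x ∈ A ∩ B))
    convert h using 1
    ext x
    constructor
    · intro hx
      have hx' : (a x, b x) = ij := hx
      exact ⟨⟨x.2.1, congrArg Prod.fst hx'⟩, x.2.2, congrArg Prod.snd hx'⟩
    · rintro ⟨hx1, hx2⟩
      exact Prod.ext hx1.2 hx2.2)
    (fun ij => contr_piece (A ∩ B) (fun x => (a x, b x) = ij) (hcAB' ij.1 ij.2))
  -- the points of the intersections
  have hpt : ∀ i j, ∃ x, (x ∈ A ∧ a x = i) ∧ (x ∈ B ∧ b x = j) := by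
    intro i j
    have h := hcAB i j
    obtain ⟨x⟩ := (inferInstance : Nonempty ↥{x | (x ∈ A ∧ a x = i) ∧ (x ∈ B ∧ b x = j)})
    exact ⟨x.1, x.2⟩
  -- points of one piece are homologous
  have hAA : ∀ x y, x ∈ A → y ∈ A → a x = a y →
      Finsupp.single (pt x) (1 : ℤ) - Finsupp.single (pt y) 1 ∈ Bdy F 0 := by
    intro x y hx hy hxy
    have h1 : Finsupp.single (pt (⟨x, hx⟩ : A)) (1 : ℤ) - Finsupp.single (pt (⟨y, hy⟩ : A)) 1 ∈
        Bdy A 0 := by
      rw [hA0]
      intro i
      rw [map_sub, lsm_single, lsm_single]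
      show (if a x = i then (1 : ℤ) else 0) - (if a y = i then (1 : ℤ) else 0) = 0
      rw [hxy, sub_self]
    have h2 := push_mem_Bdy (sub A) 0 _ h1
    rw [map_sub, push_pt, push_pt] at h2
    exact h2
  have hBB : ∀ x y, x ∈ B → y ∈ B → b x = b y →
      Finsupp.single (pt x) (1 : ℤ) - Finsupp.single (pt y) 1 ∈ Bdy F 0 := by
    intro x y hx hy hxy
    have h1 : Finsupp.single (pt (⟨x, hx⟩ : B)) (1 : ℤ) - Finsupp.single (pt (⟨y, hy⟩ : B)) 1 ∈
        Bdy B 0 := by
      rw [hB0]
      intro i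
      rw [map_sub, lsm_single, lsm_single]
      show (if b x = i then (1 : ℤ) else 0) - (if b y = i then (1 : ℤ) else 0) = 0
      rw [hxy, sub_self]
    have h2 := push_mem_Bdy (sub B) 0 _ h1
    rw [map_sub, push_pt, push_pt] at h2
    exact h2
  have hfin : ∀ (n : ℕ) (u : Sing A (n + 1) →₀ ℤ) (v : Sing B (n + 1) →₀ ℤ)
      (w : Sing ↥(A ∩ B) (n + 1) →₀ ℤ), bdry A n u = push (inl A B) n (bdry _ n w) →
      bdry B n v = - push (inr A B) n (bdry _ n w) →
      push (sub A) (n + 1) u + push (sub B) (n + 1) v ∈ Bdy F (n + 1) := by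
    intro n u v w hu hv
    have h1 : u - push (inl A B) (n + 1) w ∈ Bdy A (n + 1) := by
      apply hA1
      show bdry A n (u - push (inl A B) (n + 1) w) = 0
      rw [map_sub, bdry_push, hu, sub_self]
    have h2 : v + push (inr A B) (n + 1) w ∈ Bdy B (n + 1) := by
      apply hB1
      show bdry B n (v + push (inr A B) (n + 1) w) = 0
      rw [map_add, bdry_push, hv, neg_add_cancel]
    have h3 := (Bdy F (n + 1)).add_mem (push_mem_Bdy (sub A) (n + 1) _ h1)
      (push_mem_Bdy (sub B) (n + 1) _ h2)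
    rw [map_sub, map_add, mvx_push_inl, mvx_push_inr] at h3
    have h4 : push (sub A) (n + 1) u - push (sub (A ∩ B)) (n + 1) w +
        (push (sub B) (n + 1) v + push (sub (A ∩ B)) (n + 1) w) =
        push (sub A) (n + 1) u + push (sub B) (n + 1) v := by abel
    rw [h4] at h3
    exact h3
  intro n
  cases n with
  | zero =>
    intro z _ hz
    apply PP_mem_Bdy
    obtain ⟨x₀, ⟨hx1, hx2⟩, hx3, hx4⟩ := hpt 0 0
    have h1 := aug_zero x₀ (fun x => by
      rcases hcov x with hx | hx
      · obtain ⟨q, ⟨hq1, hq2⟩, hq3, hq4⟩ := hpt (a x) 0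
        have e1 := hAA x q hx hq1 hq2.symm
        have e2 := hBB q x₀ hq3 hx3 (hq4.trans hx4.symm)
        have e3 := Submodule.add_mem _ e1 e2
        rwa [sub_add_sub_cancel] at e3
      · obtain ⟨q, ⟨hq1, hq2⟩, hq3, hq4⟩ := hpt 0 (b x)
        have e1 := hBB x q hx hq3 hq4.symm
        have e2 := hAA q x₀ hq1 hx1 (hq2.trans hx2.symm)
        have e3 := Submodule.add_mem _ e1 e2
        rwa [sub_add_sub_cancel] at e3) z
    rw [hz rfl, zero_smul, sub_zero] at h1
    exact h1
  | succ n =>
    intro z hz _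
    obtain ⟨u, v, d, hd, hzuv, hu, hv⟩ := mv_split A B hAo hBo hcov n z hz
    cases n with
    | succ n =>
      apply PP_mem_Bdy
      obtain ⟨w, hw⟩ := hI1 n d hd
      rw [← hw] at hu hv
      have h1 := hfin (n + 1) u v w hu hv
      have h2 := Submodule.add_mem _ hzuv h1
      rwa [sub_add_cancel] at h2
    | zero =>
      -- the restrictions of `g`
      let gA : C(A, A) := rs g A fun x hx => (hgA x hx).1
      let gB : C(B, B) := rs g B fun x hx => (hgB x hx).1
      let gI : C(↥(A ∩ B), ↥(A ∩ B)) := rs g (A ∩ B) fun x hx => ⟨(hgA x hx.1).1, (hgB x hx.2).1⟩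
      -- the table of `d`
      have hrow : ∀ i, ∑ j, lsm lAB (i, j) d = 0 := by
        intro i
        have h1 : push (inl A B) 0 d ∈ Bdy A 0 := ⟨u, hu⟩
        have h2 := (hA0 _).1 h1 i
        rw [← h2]
        clear h1 h2 hu hv hd hzuv
        induction d using Finsupp.induction_linear with
        | zero => simp
        | add p q hp hq =>
          rw [map_add, map_add, ← hp, ← hq, ← Finset.sum_add_distrib]
          exact Finset.sum_congr rfl fun j _ => map_add _ _ _
        | single σ c =>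
          rw [push_single, lsm_single]
          simp only [lsm_single]
          show ∑ j, (if (a (σ (Sc.vert 0 0)), b (σ (Sc.vert 0 0))) = (i, j) then c else 0) =
            if a (σ (Sc.vert 0 0)) = i then c else 0
          by_cases h : a (σ (Sc.vert 0 0)) = i
          · simp [h]
          · simp [h]
      have hcol : ∀ j, ∑ i, lsm lAB (i, j) d = 0 := by
        intro j
        have h1 : push (inr A B) 0 d ∈ Bdy B 0 := ⟨-v, by rw [map_neg, hv, neg_neg]⟩
        have h2 := (hB0 _).1 h1 j
        rw [← h2]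
        clear h1 h2 hu hv hd hzuv hrow
        induction d using Finsupp.induction_linear with
        | zero => simp
        | add p q hp hq =>
          rw [map_add, map_add, ← hp, ← hq, ← Finset.sum_add_distrib]
          exact Finset.sum_congr rfl fun j _ => map_add _ _ _
        | single σ c =>
          rw [push_single, lsm_single]
          simp only [lsm_single]
          show ∑ i, (if (a (σ (Sc.vert 0 0)), b (σ (Sc.vert 0 0))) = (i, j) then c else 0) =
            if b (σ (Sc.vert 0 0)) = j then c else 0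
          by_cases h : b (σ (Sc.vert 0 0)) = j
          · simp [h]
          · simp [h]
      have hshift : ∀ (e : Sing ↥(A ∩ B) 0 →₀ ℤ) (i : ZMod 2) (j : ZMod 3),
          lsm lAB (i, j) (push gI 0 e) = lsm lAB (i - 1, j - 1) e := by
        intro e i j
        induction e using Finsupp.induction_linear with
        | zero => simp
        | add p q hp hq => rw [map_add, map_add, map_add, hp, hq]
        | single σ c =>
          rw [push_single, lsm_single, lsm_single]
          have e1 : lAB ((gI.comp σ) (Sc.vert 0 0)) =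
              (a (σ (Sc.vert 0 0)) + 1, b (σ (Sc.vert 0 0)) + 1) := by
            show (a (g (σ (Sc.vert 0 0))), b (g (σ (Sc.vert 0 0)))) = _
            rw [(hgA _ (σ (Sc.vert 0 0)).2.1).2, (hgB _ (σ (Sc.vert 0 0)).2.2).2]
          have e2 : lAB (σ (Sc.vert 0 0)) = (a (σ (Sc.vert 0 0)), b (σ (Sc.vert 0 0))) := rfl
          rw [e1, e2]
          simp only [Prod.mk.injEq, eq_sub_iff_add_eq]
      have hPd : PP gI 0 d ∈ Bdy ↥(A ∩ B) 0 := by
        rw [hI0]
        rintro ⟨i, j⟩
        rw [PP_apply, map_add, map_sub, hshift, hshift, hshift]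
        exact table (fun i j => lsm lAB (i, j) d) hcol hrow i j
      obtain ⟨w, hw⟩ := hPd
      have hu' : bdry A 0 (PP gA 1 u) = push (inl A B) 0 (bdry _ 0 w) := by
        rw [bdry_PP, hu, hw, push_PP (inl A B) gI gA (fun x => rfl)]
      have hv' : bdry B 0 (PP gB 1 v) = - push (inr A B) 0 (bdry _ 0 w) := by
        rw [bdry_PP, hv, hw, push_PP (inr A B) gI gB (fun x => rfl), map_neg]
      have h1 := hfin 0 (PP gA 1 u) (PP gB 1 v) w hu' hv'
      rw [push_PP (sub A) gA g (fun x => rfl), push_PP (sub B) gB g (fun x => rfl), ← map_add] at h1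
      have h2 := PP_mem_Bdy g 1 _ hzuv
      have h3 := Submodule.add_mem _ h2 h1
      rw [← map_add, sub_add_cancel] at h3
      exact h3

end Pool.Agent.Q13.HF.JOIN
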